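import Pool.Agent.Run7.h96.IX.Stm

/-!
# Project IX of helper96, piece PAD (helper352)
-/

set_option autoImplicit false

open Finset

namespace Run7.h352.IX

open Run7.h96.IX

theorem cnt_mono {n : ℕ} (lam : ℕ) {A B A' B' : Finset (Finset (Fin n))} (hA : A ⊆ A')
    (hB : B ⊆ B') : cnt lam A B ≤ cnt lam A' B' :=
  Finset.card_le_card (Finset.filter_subset_filter _ (Finset.product_subset_product hA hB))

theorem ach_one (r t : ℕ) (h : t ≤ r) : Ach r 1 1 t := by
  obtain ⟨T, -, hT⟩ := Finset.exists_subset_card_eq (s := (univ : Finset (Fin r))) (n := t)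
    (by rw [Finset.card_univ, Fintype.card_fin]; exact h)
  refine ⟨{T}, {T}, Finset.card_singleton T, Finset.card_singleton T, ?_⟩
  unfold cnt
  refine Finset.card_pos.2 ⟨(T, T), ?_⟩
  rw [Finset.mem_filter, Finset.mem_product]
  refine ⟨⟨Finset.mem_singleton_self T, Finset.mem_singleton_self T⟩, ?_⟩
  show (T ∩ T).card = t
  rw [Finset.inter_self, hT]

/-- PAD -/
theorem t_PAD (hM : S_MUL) : S_PAD := by
  have h1 : ∀ n P K lam n' P' K' lam', Ach n P K lam → Ach n' P' K' lam' →
      Ach (n + n') (P * P') (K * K') (lam + lam') := by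
    rintro n P K lam n' P' K' lam' ⟨A, B, hA, hB, hP⟩ ⟨A', B', hA', hB', hP'⟩
    obtain ⟨A'', B'', e1, e2, e3⟩ := hM n n' lam lam' A B A' B'
    exact ⟨A'', B'', by rw [e1, hA, hA'], by rw [e2, hB, hB'], (Nat.mul_le_mul hP hP').trans e3⟩
  refine ⟨h1, ?_, ?_, ?_⟩
  · intro n P K lam r t ht h
    have := h1 n P K lam r 1 1 t h (ach_one r t ht)
    rwa [mul_one, mul_one] at this
  · intro n P K lam q h
    induction q with
    | zero =>
      rw [zero_mul, zero_mul, pow_zero, pow_zero]
      exact ach_one 0 0 le_rfl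
    | succ q ih =>
      rw [add_mul, one_mul, add_mul, one_mul, pow_succ, pow_succ]
      exact h1 _ _ _ _ _ _ _ _ ih h
  · rintro n P K lam m ⟨A, B, hA, hB, hP⟩ hK hm
    have hc : Fintype.card (Finset (Fin n)) = 2 ^ n := by
      rw [Fintype.card_finset, Fintype.card_fin]
    obtain ⟨A', hA1, hA2⟩ := Finset.exists_superset_card_eq (s := A) (n := m)
      (by rw [hA]; exact hK) (by rw [hc]; exact hm)
    obtain ⟨B', hB1, hB2⟩ := Finset.exists_superset_card_eq (s := B) (n := m)
      (by rw [hB]; exact hK) (by rw [hc]; exact hm)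
    exact ⟨A', B', hA2, hB2, hP.trans (cnt_mono lam hA1 hB1)⟩

end Run7.h352.IX
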